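import Pool.Agent.Lib.MP_076764_co.Join

set_option autoImplicit false

/-!
Directed joins are antimagic.
-/

namespace Pool.Agent.Results.MP_076764_co.DirectedJoin

open Finset

/-- Let `(V, E)` be an oriented simple graph whose vertex set is the union of two disjoint
nonempty sets `A` and `Aᶜ` such that all arcs from `A` to `Aᶜ` are present (a directed join; the
arcs inside `A` and inside `Aᶜ` are arbitrary). Then for every set `L` of `|E|` positive real
numbers there is a bijection from `E` onto `L` for which the oriented sums at the vertices are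
pairwise distinct. For `L = {1, ..., |E|}` this says that the directed graph is antimagic. -/
theorem result {V : Type*} [Fintype V] [DecidableEq V] (E : Finset (V × V))
    (hsimple : ∀ p ∈ E, (p.2, p.1) ∉ E)
    (A : Finset V) (hA : A.Nonempty) (hB : ∃ b, b ∉ A)
    (hjoin : ∀ a ∈ A, ∀ b, b ∉ A → (a, b) ∈ E)
    (L : Finset ℝ) (hL : L.card = E.card) (hpos : ∀ x ∈ L, 0 < x) :
    ∃ f : V × V → ℝ, Set.BijOn f (E : Set (V × V)) (L : Set ℝ) ∧
      Function.Injective fun v : V => (∑ p ∈ E.filter (fun p => p.1 = v), f p) -
        ∑ p ∈ E.filter (fun p => p.2 = v), f p :=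
  Pool.Agent.Lib.MP_076764_co.Join.main E hsimple A hA hB hjoin L hL hpos

end Pool.Agent.Results.MP_076764_co.DirectedJoin
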