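import Pool.Agent.Lib.MP_076764_co.Core

set_option autoImplicit false

/-!
Directed graphs of large constant average degree are antimagic.
-/

namespace Pool.Agent.Results.MP_076764_co.LargeAverageDegree

open Finset Pool.Agent.Lib.MP_076764_co

/-- Let `(V, E)` be an oriented simple graph with at most one isolated vertex and with
`|E| ≥ 45 |V|`. Then for every set `L` of `|E|` real numbers there is a bijection from `E` onto
`L` for which the oriented sums at the vertices are pairwise distinct. For `L = {1, ..., |E|}`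
this says that the directed graph is antimagic. -/
theorem result {V : Type*} [Fintype V] [DecidableEq V] (E : Finset (V × V))
    (hloop : ∀ p ∈ E, p.1 ≠ p.2) (hsimple : ∀ p ∈ E, (p.2, p.1) ∉ E)
    (hiso : ∀ u v : V, u ≠ v → ∃ p ∈ E, p.1 = u ∨ p.2 = u ∨ p.1 = v ∨ p.2 = v)
    (hE : 45 * Fintype.card V ≤ E.card) (L : Finset ℝ) (hL : L.card = E.card) :
    ∃ f : V × V → ℝ, Set.BijOn f (E : Set (V × V)) (L : Set ℝ) ∧
      Function.Injective fun v : V =>
        (∑ p ∈ E.filter (fun p => p.1 = v), f p) - ∑ p ∈ E.filter (fun p => p.2 = v), f p := by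
  classical
  let D : Dig E V :=
    { t := fun e => e.1.1
      h := fun e => e.1.2
      ne := fun e => hloop e.1 e.2
      simple := by
        rintro ⟨e, he⟩ ⟨f, hf⟩ h
        apply Subtype.ext
        rcases h with ⟨h1, h2⟩ | ⟨h1, h2⟩
        · exact Prod.ext h1 h2
        · exfalso
          apply hsimple f hf
          have : (f.2, f.1) = e := Prod.ext h1.symm h2.symm
          rw [this]; exact he }
  -- a first labelling
  have hcard : Fintype.card E = Fintype.card L := by simp [hL]
  let φ : E ≃ L := Fintype.equivOfCardEq hcard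
  let w : E → ℝ := fun e => (φ e : ℝ)
  have hw : Function.Injective w := fun a b h => φ.injective (Subtype.ext h)
  obtain ⟨σ, hσ⟩ := D.main w hw (by rw [Fintype.card_coe]; exact hE) (by
    intro u v huv
    obtain ⟨p, hp, h⟩ := hiso u v huv
    rcases h with h | h | h | h
    · exact ⟨⟨p, hp⟩, Or.inl h⟩
    · exact ⟨⟨p, hp⟩, Or.inr (Or.inl h)⟩
    · exact ⟨⟨p, hp⟩, Or.inr (Or.inr (Or.inl h))⟩
    · exact ⟨⟨p, hp⟩, Or.inr (Or.inr (Or.inr h))⟩)
  let f : V × V → ℝ := fun p => if hp : p ∈ E then w (σ ⟨p, hp⟩) else 0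
  have hf : ∀ (p : V × V) (hp : p ∈ E), f p = w (σ ⟨p, hp⟩) := fun p hp => dif_pos hp
  refine ⟨f, ⟨?_, ?_, ?_⟩, ?_⟩
  · intro p hp
    rw [hf p hp]
    exact (φ _).2
  · intro p hp q hq h
    rw [hf p hp, hf q hq] at h
    exact congrArg Subtype.val (σ.injective (hw h))
  · intro x hx
    refine ⟨(σ.symm (φ.symm ⟨x, hx⟩)).1, (σ.symm (φ.symm ⟨x, hx⟩)).2, ?_⟩
    rw [hf _ (σ.symm (φ.symm ⟨x, hx⟩)).2]
    simp [w]
  · have hs : (fun v : V => (∑ p ∈ E.filter (fun p => p.1 = v), f p) -
        ∑ p ∈ E.filter (fun p => p.2 = v), f p) = D.s (w ∘ σ) := by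
      funext v
      have h1 : D.s (w ∘ σ) v = ∑ e : E, (((if e.1.1 = v then 1 else 0) -
          (if e.1.2 = v then 1 else 0)) * f e.1) := by
        unfold Dig.s
        apply Finset.sum_congr rfl
        intro e _
        rw [hf e.1 e.2]
        rfl
      rw [h1, Finset.sum_coe_sort E (fun p => (((if p.1 = v then (1 : ℝ) else 0) -
          (if p.2 = v then 1 else 0)) * f p)), Finset.sum_filter, Finset.sum_filter,
        ← Finset.sum_sub_distrib]
      apply Finset.sum_congr rfl
      intro p _
      split_ifs <;> ring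
    rw [hs]
    exact hσ

end Pool.Agent.Results.MP_076764_co.LargeAverageDegree
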